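import Pool.Agent.Helper78.ZM.Stmts

/-!
Project ZM (MP_ccc3c9_an), module ZM-10: limits of the Monge–Ampère masses.
-/

open MeasureTheory Filter Topology
open scoped ContDiff Real ENNReal ComplexOrder

set_option autoImplicit false
set_option linter.all false

namespace Pool.Agent.Helper53.ZM

open Pool.Agent.Helper78.ZM

/-! ### the Euclidean norm -/

section nrm

variable {n : ℕ}

theorem nrm_nonneg (x : Cn n) : 0 ≤ nrm x := Real.sqrt_nonneg _

theorem nrm_sq (x : Cn n) : nrm x ^ 2 = ∑ j, ‖x j‖ ^ 2 := Real.sq_sqrt (by positivity)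

theorem continuous_nrm : Continuous (nrm : Cn n → ℝ) := by
  unfold nrm
  fun_prop

theorem norm_le_nrm (x : Cn n) : ‖x‖ ≤ nrm x := by
  rw [pi_norm_le_iff_of_nonneg (nrm_nonneg x)]
  intro j
  apply Real.le_sqrt_of_sq_le
  exact Finset.single_le_sum (f := fun j => ‖x j‖ ^ 2) (fun i _ => by positivity)
    (Finset.mem_univ j)

theorem nrm_zero : nrm (0 : Cn n) = 0 := by simp [nrm]

theorem nrm_pos {x : Cn n} (h : x ≠ 0) : 0 < nrm x :=
  lt_of_lt_of_le (norm_pos_iff.2 h) (norm_le_nrm x)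

theorem isCompact_ball (R : ℝ) : IsCompact {x : Cn n | nrm x ≤ R} := by
  apply Metric.isCompact_of_isClosed_isBounded
  · exact isClosed_le continuous_nrm continuous_const
  · apply (Metric.isBounded_closedBall (x := (0 : Cn n)) (r := R)).subset
    intro x hx
    rw [mem_closedBall_zero_iff]
    exact (norm_le_nrm x).trans hx

theorem isCompact_shell (a b : ℝ) : IsCompact {x : Cn n | a ≤ nrm x ∧ nrm x ≤ b} := by
  apply (isCompact_ball b).of_isClosed_subset
  · exact (isClosed_le continuous_const continuous_nrm).inter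
      (isClosed_le continuous_nrm continuous_const)
  · intro x hx
    exact hx.2

theorem contDiff_sumsq : ContDiff ℝ ∞ (fun x : Cn n => ∑ j, ‖x j‖ ^ 2) := by
  apply ContDiff.sum
  intro j _
  apply ContDiff.norm_sq ℝ
  fun_prop

/-- a property which holds near `0` holds on a small Euclidean ball -/
theorem exists_ball {p : Cn n → Prop} (h : ∀ᶠ y in 𝓝 (0 : Cn n), p y) :
    ∃ δ > 0, ∀ y, nrm y < δ → p y := by
  obtain ⟨δ, hδ, h⟩ := Metric.eventually_nhds_iff.1 h
  refine ⟨δ, hδ, fun y hy => h ?_⟩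
  rw [dist_zero_right]
  exact (norm_le_nrm y).trans_lt hy

end nrm

/-! ### the bump function -/

/-- the bump function -/
noncomputable def bump (n : ℕ) (x : Cn n) : ℝ :=
  Real.smoothTransition (4 * (1 / 2 - ∑ j, ‖x j‖ ^ 2))

section bump

variable {n : ℕ}

theorem contDiff_bump : ContDiff ℝ ∞ (bump n) := by
  unfold bump
  apply Real.smoothTransition.contDiff.comp
  exact contDiff_const.mul (contDiff_const.sub contDiff_sumsq)

theorem bump_nonneg (x : Cn n) : 0 ≤ bump n x := Real.smoothTransition.nonneg _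

theorem bump_one {x : Cn n} (h : nrm x ≤ 1 / 2) : bump n x = 1 := by
  apply Real.smoothTransition.one_of_one_le
  rw [← nrm_sq]
  nlinarith [nrm_nonneg x]

theorem bump_zero {x : Cn n} (h : 3 / 4 ≤ nrm x) : bump n x = 0 := by
  apply Real.smoothTransition.zero_of_nonpos
  rw [← nrm_sq]
  nlinarith [nrm_nonneg x]

theorem tsupport_bump : tsupport (bump n) ⊆ {x | nrm x ≤ 3 / 4} := by
  apply closure_minimal _ (isClosed_le continuous_nrm continuous_const)
  intro x hx
  by_contra h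
  exact hx (bump_zero (le_of_lt (not_le.1 h)))

theorem compact_bump : HasCompactSupport (bump n) :=
  (isCompact_ball (3 / 4)).of_isClosed_subset (isClosed_tsupport _) tsupport_bump

theorem locConst_bump (x : Cn n) (hx : x ∉ interior {x : Cn n | 3 / 8 ≤ nrm x ∧ nrm x ≤ 7 / 8}) :
    ∀ᶠ y in 𝓝 x, bump n y = bump n x := by
  have hint : {x : Cn n | 3 / 8 < nrm x ∧ nrm x < 7 / 8} ⊆
      interior {x : Cn n | 3 / 8 ≤ nrm x ∧ nrm x ≤ 7 / 8} := by
    apply interior_maximal
    · intro y hy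
      exact ⟨hy.1.le, hy.2.le⟩
    · exact (isOpen_lt continuous_const continuous_nrm).inter
        (isOpen_lt continuous_nrm continuous_const)
  have h1 : ¬ (3 / 8 < nrm x ∧ nrm x < 7 / 8) := fun h => hx (hint h)
  by_cases h2 : nrm x < 1 / 2
  · have h3 : ∀ᶠ y in 𝓝 x, nrm y < 1 / 2 :=
      (isOpen_lt continuous_nrm continuous_const).mem_nhds h2
    filter_upwards [h3] with y hy
    rw [bump_one hy.le, bump_one h2.le]
  · have h4 : 3 / 4 < nrm x := by
      by_contra h5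
      apply h1
      constructor <;> linarith
    have h3 : ∀ᶠ y in 𝓝 x, 3 / 4 < nrm y :=
      (isOpen_lt continuous_const continuous_nrm).mem_nhds h4
    filter_upwards [h3] with y hy
    rw [bump_zero hy.le, bump_zero h4.le]

end bump

/-! ### the functions `h_k` -/

section constr

variable {m N0 : ℕ} {M0 : ℝ} {F : ℕ → Cn (m + 2) → ℂ} {τ r : ℕ → ℝ}

theorem smooth_Phi (hc : Constr m N0 M0 F τ r) (k N : ℕ) (j : Fin (m + 2)) :
    ContDiff ℂ ∞ (fun x => Phi (F k) N x j) := by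
  unfold Phi
  by_cases h : j = 0
  · subst h
    simpa using hc.smooth k
  · simp only [ne_eq, h, not_false_eq_true, Function.update_of_ne]
    fun_prop

theorem smooth_hh (h6 : Z6Stmt) (hc : Constr m N0 M0 F τ r) (k : ℕ) :
    ContDiff ℝ ∞ (hh N0 F τ k) :=
  (h6 _ _ (smooth_Phi hc k _) _ _ _ (hc.tau_pos k) 0).1

theorem ma_hh (h6 : Z6Stmt) (hc : Constr m N0 M0 F τ r) (k : ℕ) :
    Continuous (maDensity (hh N0 F τ k)) := by
  have e : maDensity (hh N0 F τ k) = fun x => ((m + 2).factorial : ℝ) * (2 / π) ^ (m + 2) *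
      ((1 / (2 * ((N0 : ℝ) * 2 ^ k))) ^ (m + 2) * τ k *
        ‖(jacM (Phi (F k) (N0 * 2 ^ k)) x).det‖ ^ 2 /
          (∑ j, ‖Phi (F k) (N0 * 2 ^ k) x j‖ ^ 2 + τ k) ^ (m + 2 + 1)) := by
    funext x
    unfold maDensity
    have h := (h6 _ _ (smooth_Phi hc k (N0 * 2 ^ k)) (τ k) (1 / (2 * ((N0 : ℝ) * 2 ^ k)))
      ((m + 2) / ((N0 : ℝ) * 2 ^ k)) (hc.tau_pos k) x).2
    unfold hh
    rw [h, Complex.ofReal_re]
  rw [e]
  have hΦ : ∀ j, Continuous (fun x => Phi (F k) (N0 * 2 ^ k) x j) := fun j =>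
    (smooth_Phi hc k _ j).continuous
  have hjac : Continuous (fun x => (jacM (Phi (F k) (N0 * 2 ^ k)) x).det) := by
    apply Continuous.matrix_det
    apply continuous_matrix
    intro i j
    have h1 := (smooth_Phi hc k (N0 * 2 ^ k) i).continuous_fderiv (by simp)
    exact h1.clm_apply continuous_const
  apply Continuous.mul continuous_const
  apply Continuous.div
  · fun_prop
  · fun_prop
  · intro x
    have h1 := hc.tau_pos k
    positivity

theorem psh_hh (h5 : Z5Stmt) (h6 : Z6Stmt) (hc : Constr m N0 M0 F τ r) (k : ℕ)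
    {U : Set (Cn (m + 2))} (hU : U.Nonempty) : IsPSH (fun x => (hh N0 F τ k x : EReal)) U := by
  apply h5.2 _ _ _ hU (smooth_hh h6 hc k).continuous
  intro x v
  exact h5.1 _ _ (smooth_Phi hc k _) _ _ _ (hc.tau_pos k) (by positivity) x v

theorem psd_hh (h4 : Z4Stmt) (h5 : Z5Stmt) (h6 : Z6Stmt) (hc : Constr m N0 M0 F τ r) (k : ℕ)
    (x : Cn (m + 2)) : (levi (hh N0 F τ k) x).PosSemidef :=
  h4 _ Set.univ _ isOpen_univ (smooth_hh h6 hc k).contDiffOn (psh_hh h5 h6 hc k Set.univ_nonempty) x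
    (Set.mem_univ x)

theorem r_le (hc : Constr m N0 M0 F τ r) (k : ℕ) : r k ≤ (1 / 4) * (1 / 2) ^ k := by
  induction k with
  | zero => rw [hc.r_zero]; norm_num
  | succ k ih =>
    have := hc.r_half k
    rw [pow_succ]
    linarith

theorem r_tendsto (hc : Constr m N0 M0 F τ r) : Tendsto r atTop (𝓝 0) := by
  have h1 : Tendsto (fun k : ℕ => (1 / 4 : ℝ) * (1 / 2) ^ k) atTop (𝓝 0) := by
    have := (tendsto_pow_atTop_nhds_zero_of_lt_one (r := (1 / 2 : ℝ)) (by norm_num)
      (by norm_num)).const_mul (1 / 4 : ℝ)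
    simpa using this
  exact squeeze_zero (fun k => (hc.r_pos k).le) (r_le hc) h1

/-- the functions `h_k` are decreasing -/
theorem hh_anti (hc : Constr m N0 M0 F τ r) {x : Cn (m + 2)} (hx : nrm x ≤ 1) {j k : ℕ}
    (hjk : j ≤ k) : hh N0 F τ k x ≤ hh N0 F τ j x := by
  induction k, hjk using Nat.le_induction with
  | base => exact le_rfl
  | succ k _ ih => exact (hc.anti k x hx).trans ih

theorem r_anti (hc : Constr m N0 M0 F τ r) {j k : ℕ} (hjk : j ≤ k) : r k ≤ r j := by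
  induction k, hjk using Nat.le_induction with
  | base => exact le_rfl
  | succ k _ ih =>
    have h1 := hc.r_half k
    have h2 := hc.r_pos k
    linarith

theorem shell_diff (h9 : Z9Stmt) (hN : 1 ≤ N0) (hc : Constr m N0 M0 F τ r) {j k : ℕ}
    (hkj : k ≤ j) {x : Cn (m + 2)} (hx : r k ≤ nrm x) (hx1 : nrm x < 1) :
    |hh N0 F τ k x - hh N0 F τ j x| ≤ 2 * (m + 3) / ((N0 : ℝ) * 2 ^ k) := by
  obtain ⟨-, -, -, -, g, -, -, hg⟩ := h9 m N0 M0 F τ r hN hc
  have h1 := hg k x hx hx1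
  have h2 := hg j x ((r_anti hc hkj).trans hx) hx1
  have h3 := hh_anti hc hx1.le hkj
  rw [abs_le]
  constructor <;> linarith [h1.1, h1.2, h2.1, h2.2]

/-- the masses -/
noncomputable def mass (N0 : ℕ) (F : ℕ → Cn (m + 2) → ℂ) (τ : ℕ → ℝ) (k : ℕ) : ℝ :=
  ∫ x, bump (m + 2) x * maDensity (hh N0 F τ k) x

theorem M0_nonneg (hc : Constr m N0 M0 F τ r) : 0 ≤ M0 := by
  have h1 : nrm (Pi.single 0 (1 / 2 : ℂ) : Cn (m + 2)) = 1 / 2 := by
    have h2 : nrm (Pi.single 0 (1 / 2 : ℂ) : Cn (m + 2)) ^ 2 = (1 / 2) ^ 2 := by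
      rw [nrm_sq, Finset.sum_eq_single 0]
      · rw [Pi.single_eq_same]; norm_num
      · intro j _ hj
        rw [Pi.single_eq_of_ne hj]; simp
      · simp
    exact (pow_left_inj₀ (nrm_nonneg _) (by norm_num) (by norm_num)).1 h2
  exact (abs_nonneg _).trans (hc.bound 0 _ (by rw [h1]; norm_num) (by rw [h1]; norm_num))

end constr

theorem mass_diff (h3 : Z3Stmt) (h4 : Z4Stmt) (h5 : Z5Stmt) (h6 : Z6Stmt) (h9 : Z9Stmt) (m : ℕ) :
    ∃ C : ℝ, 0 ≤ C ∧ ∀ (N0 : ℕ) (M0 : ℝ) (F : ℕ → Cn (m + 2) → ℂ) (τ r : ℕ → ℝ), 1 ≤ N0 →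
      Constr m N0 M0 F τ r → ∀ k j : ℕ, k ≤ j → |mass N0 F τ k - mass N0 F τ j| ≤
        C * M0 ^ (m + 1) * (2 * (m + 3) / ((N0 : ℝ) * 2 ^ k)) := by
  obtain ⟨C, hC, h⟩ := h3 (m + 2) (bump (m + 2)) contDiff_bump compact_bump _
    (isCompact_shell (3 / 8) (7 / 8)) locConst_bump
  refine ⟨C, hC, ?_⟩
  intro N0 M0 F τ r hN hc k j hkj
  have h1 := h Set.univ isOpen_univ (Set.subset_univ _) (Set.subset_univ _) (hh N0 F τ k)
    (hh N0 F τ j) (smooth_hh h6 hc k).contDiffOn (smooth_hh h6 hc j).contDiffOn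
    (fun x _ => psd_hh h4 h5 h6 hc k x) (fun x _ => psd_hh h4 h5 h6 hc j x) M0
    (2 * (m + 3) / ((N0 : ℝ) * 2 ^ k)) (by positivity)
    (fun x hx => hc.bound k x (by linarith [hx.1]) (by linarith [hx.2]))
    (fun x hx => hc.bound j x (by linarith [hx.1]) (by linarith [hx.2]))
    (fun x hx => shell_diff h9 hN hc hkj (by
      have := r_le hc k
      have h2 : (1 / 2 : ℝ) ^ k ≤ 1 := pow_le_one₀ (by norm_num) (by norm_num)
      linarith [hx.1]) (by linarith [hx.2]))
  simpa [mass] using h1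

section limits

variable {m N0 : ℕ} {M0 : ℝ} {F : ℕ → Cn (m + 2) → ℂ} {τ r : ℕ → ℝ}

theorem tendsto_small (hc : Constr m N0 M0 F τ r) {χ : Cn (m + 2) → ℝ} (hχ : Continuous χ)
    (hcs : HasCompactSupport χ) (hsub : tsupport χ ⊆ uball (m + 2))
    (h0 : ∀ᶠ y in 𝓝 (0 : Cn (m + 2)), χ y = 0) :
    Tendsto (fun k => ∫ x, χ x * maDensity (hh N0 F τ k) x) atTop (𝓝 0) := by
  rw [← tendsto_add_atTop_iff_nat 1]
  obtain ⟨δ, hδ, h⟩ := exists_ball h0
  have hev : ∀ᶠ k in atTop, r (k + 1) < δ :=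
    ((tendsto_add_atTop_iff_nat 1).2 (r_tendsto hc)).eventually_lt_const hδ
  have hint : Integrable (fun x => |χ x|) :=
    (hχ.abs).integrable_of_hasCompactSupport (hcs.comp_left abs_zero)
  have hlim : Tendsto (fun k : ℕ => (1 / 2 : ℝ) ^ (k + 1) * ∫ x, |χ x|) atTop (𝓝 0) := by
    have h1 := (tendsto_add_atTop_iff_nat 1).2
      (tendsto_pow_atTop_nhds_zero_of_lt_one (r := (1 / 2 : ℝ)) (by norm_num) (by norm_num))
    simpa using h1.mul_const (∫ x, |χ x|)
  apply squeeze_zero_norm' _ hlim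
  filter_upwards [hev] with k hk
  calc ‖∫ x, χ x * maDensity (hh N0 F τ (k + 1)) x‖
      ≤ ∫ x, |χ x| * (1 / 2) ^ (k + 1) := by
        apply norm_integral_le_of_norm_le (hint.mul_const _)
        refine ae_of_all _ fun x => ?_
        rw [norm_mul, Real.norm_eq_abs, Real.norm_eq_abs]
        by_cases hx : χ x = 0
        · simp [hx]
        · have h1 : δ ≤ nrm x := by
            by_contra h2
            exact hx (h x (not_le.1 h2))
          have h2 : nrm x < 1 := hsub (subset_tsupport _ hx)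
          apply mul_le_mul_of_nonneg_left _ (abs_nonneg _)
          exact hc.small k x (hk.le.trans h1) h2.le
    _ = (1 / 2) ^ (k + 1) * ∫ x, |χ x| := by
        rw [integral_mul_const, mul_comm]

theorem tendsto_test (h6 : Z6Stmt) (hc : Constr m N0 M0 F τ r) {m0 : ℝ}
    (hm : Tendsto (mass N0 F τ) atTop (𝓝 m0)) {χ : Cn (m + 2) → ℝ} (hχ : Continuous χ)
    (hcs : HasCompactSupport χ) (hsub : tsupport χ ⊆ uball (m + 2))
    (h0 : ∀ᶠ y in 𝓝 (0 : Cn (m + 2)), χ y = χ 0) :
    Tendsto (fun k => ∫ x, χ x * maDensity (hh N0 F τ k) x) atTop (𝓝 (m0 * χ 0)) := by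
  set ξ : Cn (m + 2) → ℝ := fun x => χ x - χ 0 * bump (m + 2) x with hξ
  have hb : Continuous (bump (m + 2)) := contDiff_bump.continuous
  have hξc : Continuous ξ := by fun_prop
  have hbs : HasCompactSupport (fun x => χ 0 * bump (m + 2) x) := compact_bump.mul_left
  have hξs : HasCompactSupport ξ := hcs.sub hbs
  have hξsub : tsupport ξ ⊆ uball (m + 2) := by
    have h1 : tsupport ξ ⊆ tsupport χ ∪ tsupport (bump (m + 2)) := by
      apply closure_minimal _ ((isClosed_tsupport _).union (isClosed_tsupport _))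
      intro x hx
      by_contra h2
      rw [Set.mem_union, not_or] at h2
      have h3 := image_eq_zero_of_notMem_tsupport h2.1
      have h4 := image_eq_zero_of_notMem_tsupport h2.2
      exact hx (by simp only [hξ, h3, h4]; ring)
    refine h1.trans (Set.union_subset hsub (tsupport_bump.trans ?_))
    intro x hx
    have hx' : nrm x ≤ 3 / 4 := hx
    show nrm x < 1
    linarith
  have hξ0 : ∀ᶠ y in 𝓝 (0 : Cn (m + 2)), ξ y = 0 := by
    have h1 : ∀ᶠ y in 𝓝 (0 : Cn (m + 2)), nrm y < 1 / 2 :=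
      (isOpen_lt continuous_nrm continuous_const).mem_nhds (by
        show nrm (0 : Cn (m + 2)) < 1 / 2
        rw [nrm_zero]; norm_num)
    filter_upwards [h0, h1] with y hy hy1
    simp only [hξ, hy, bump_one hy1.le]
    ring
  have hlim1 := tendsto_small hc hξc hξs hξsub hξ0
  have hlim2 := hlim1.add (hm.mul_const (χ 0))
  rw [zero_add] at hlim2
  refine hlim2.congr fun k => ?_
  have hma := ma_hh h6 hc k
  have i1 : Integrable (fun x => ξ x * maDensity (hh N0 F τ k) x) :=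
    (hξc.mul hma).integrable_of_hasCompactSupport hξs.mul_right
  have i2 : Integrable (fun x => bump (m + 2) x * maDensity (hh N0 F τ k) x) :=
    (hb.mul hma).integrable_of_hasCompactSupport compact_bump.mul_right
  unfold mass
  rw [← integral_mul_const, ← integral_add i1 (i2.mul_const _)]
  congr 1
  funext x
  simp only [hξ]
  ring

/-- convergence of the masses -/
theorem exists_mass {C : ℝ} (hC : 0 ≤ C) (hN : 1 ≤ N0) (hc : Constr m N0 M0 F τ r)
    (h : ∀ k j : ℕ, k ≤ j → |mass N0 F τ k - mass N0 F τ j| ≤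
        C * M0 ^ (m + 1) * (2 * (m + 3) / ((N0 : ℝ) * 2 ^ k))) :
    ∃ m0 : ℝ, Tendsto (mass N0 F τ) atTop (𝓝 m0) ∧
      mass N0 F τ 0 - C * M0 ^ (m + 1) * (2 * (m + 3) / (N0 : ℝ)) ≤ m0 := by
  have hcau : CauchySeq (mass N0 F τ) := by
    apply cauchySeq_of_le_geometric (1 / 2) (C * M0 ^ (m + 1) * (2 * (m + 3) / (N0 : ℝ)))
      (by norm_num)
    intro k
    rw [Real.dist_eq]
    refine (h k (k + 1) (Nat.le_succ k)).trans_eq ?_
    have : (N0 : ℝ) ≠ 0 := by positivity
    rw [one_div, inv_pow]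
    field_simp
  obtain ⟨m0, hm0⟩ := cauchySeq_tendsto_of_complete hcau
  refine ⟨m0, hm0, ?_⟩
  have h1 : ∀ j, mass N0 F τ 0 - C * M0 ^ (m + 1) * (2 * (m + 3) / (N0 : ℝ)) ≤ mass N0 F τ j := by
    intro j
    have h2 := h 0 j (Nat.zero_le j)
    rw [pow_zero, mul_one] at h2
    have h3 := le_abs_self (mass N0 F τ 0 - mass N0 F τ j)
    linarith
  exact ge_of_tendsto hm0 (Filter.Eventually.of_forall h1)

end limits

/-- the mass of the first function -/
theorem mass_zero (h7 : Z7Stmt) {m N0 : ℕ} {M0 : ℝ} {F : ℕ → Cn (m + 2) → ℂ} {τ r : ℕ → ℝ}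
    (hN : 1 ≤ N0) (hc : Constr m N0 M0 F τ r) :
    ((m + 2).factorial : ℝ) / (2 * ((m + 2 : ℕ) : ℝ) + 1) ^ (m + 2 + 1) ≤ mass N0 F τ 0 := by
  have h1 := h7 (m + 2) N0 (τ 0) ((m + 2) / ((N0 : ℝ) * 2 ^ 0)) (by omega) hN (hc.tau_pos 0)
    (by
      have := hc.tau_zero
      push_cast
      exact this) (bump (m + 2)) contDiff_bump.continuous compact_bump bump_nonneg
    (fun x hx => bump_one hx)
  refine h1.trans_eq ?_
  unfold mass hh
  have e : Phi (F 0) (N0 * 2 ^ 0) = fun (y : Cn (m + 2)) (j : Fin (m + 2)) => y j ^ N0 := by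
    funext y j
    unfold Phi
    rw [pow_zero, mul_one, hc.zero]
    by_cases hj : j = 0
    · subst hj; simp
    · simp [hj]
  rw [e]
  simp

/-- uniform convergence on a compact set of the given functions -/
theorem dini {m : ℕ} {V S : Set (Cn (m + 2))} {f : ℕ → Cn (m + 2) → ℝ} {g : Cn (m + 2) → ℝ}
    {φ : Cn (m + 2) → EReal} (hS : IsCompact S) (hSV : S ⊆ V)
    (hf : ∀ j, ContDiffOn ℝ ∞ (f j) V) (hanti : ∀ j, ∀ x ∈ V, f (j + 1) x ≤ f j x)
    (hlim : ∀ x ∈ V, Tendsto (fun j => (f j x : EReal)) atTop (𝓝 (φ x)))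
    (hg : ContinuousOn g S) (hφ : ∀ x ∈ S, φ x = (g x : EReal)) :
    TendstoUniformlyOn f g atTop S := by
  apply Antitone.tendstoUniformlyOn_of_forall_tendsto hS
    (fun j => (hf j).continuousOn.mono hSV) _ hg
  · intro x hx
    have h1 := hlim x (hSV hx)
    rw [hφ x hx] at h1
    exact (EReal.tendsto_coe).1 h1
  · intro x hx
    exact antitone_nat_of_succ_le fun j => hanti j x (hSV hx)

theorem z10 (h3 : Z3Stmt) (h4 : Z4Stmt) (h5 : Z5Stmt) (h6 : Z6Stmt) (h7 : Z7Stmt) (h8 : Z8Stmt)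
    (h9 : Z9Stmt) : Z10Stmt := by
  intro m
  obtain ⟨M0, hM0⟩ := h8 m
  obtain ⟨C, hC, hdiff⟩ := mass_diff h3 h4 h5 h6 h9 m
  set β : ℝ := ((m + 2).factorial : ℝ) / (2 * ((m + 2 : ℕ) : ℝ) + 1) ^ (m + 2 + 1) with hβ
  have hβ0 : 0 < β := by positivity
  have hM : 0 ≤ M0 := by
    obtain ⟨F, τ, r, hc⟩ := hM0 1 le_rfl
    exact M0_nonneg hc
  set D : ℝ := C * M0 ^ (m + 1) * (2 * (m + 3)) with hD
  have hD0 : 0 ≤ D := by positivity
  obtain ⟨N0, hN0⟩ := exists_nat_gt (max 1 (D / β))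
  have hN1 : (1 : ℝ) < N0 := lt_of_le_of_lt (le_max_left _ _) hN0
  have hN : 1 ≤ N0 := by exact_mod_cast hN1.le
  have hN2 : D / β < N0 := lt_of_le_of_lt (le_max_right _ _) hN0
  have hN3 : D / N0 < β := by
    rw [div_lt_iff₀ hβ0] at hN2
    rw [div_lt_iff₀ (by linarith)]
    linarith
  obtain ⟨F, τ, r, hc⟩ := hM0 N0 hN
  obtain ⟨m0, hm0, hm1⟩ := exists_mass hC hN hc (hdiff N0 M0 F τ r hN hc)
  have hm2 := mass_zero h7 hN hc
  refine ⟨N0, M0, F, τ, r, hN, hc, m0, ?_, ?_⟩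
  · have e : C * M0 ^ (m + 1) * (2 * (m + 3) / (N0 : ℝ)) = D / N0 := by
      rw [hD]; ring
    rw [e] at hm1
    linarith
  intro V hV hVb f hf hpsh hanti hlim χ hχ hcs hsub h0
  obtain ⟨-, -, -, -, g, hgc, hgφ, hgh⟩ := h9 m N0 M0 F τ r hN hc
  have hVu : V ⊆ uball (m + 2) := subset_closure.trans hVb
  obtain ⟨δ, hδ, hδ0⟩ := exists_ball h0
  obtain ⟨K, hK, hχK, hKV⟩ := exists_compact_between hcs hV hsub
  set S : Set (Cn (m + 2)) := {x | x ∈ K ∧ δ / 2 ≤ nrm x} with hS
  have hSc : IsCompact S :=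
    hK.of_isClosed_subset (hK.isClosed.inter (isClosed_le continuous_const continuous_nrm))
      (fun x hx => hx.1)
  have hSV : S ⊆ V := fun x hx => hKV hx.1
  have hSloc : ∀ x, x ∉ interior S → ∀ᶠ y in 𝓝 x, χ y = χ x := by
    intro x hx
    by_cases hxt : x ∈ tsupport χ
    · have h1 : nrm x < δ := by
        by_contra h2
        apply hx
        have h3 : {x | x ∈ interior K ∧ δ / 2 < nrm x} ⊆ interior S := by
          apply interior_maximal
          · intro y hy
            exact ⟨interior_subset hy.1, hy.2.le⟩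
          · exact isOpen_interior.inter (isOpen_lt continuous_const continuous_nrm)
        exact h3 ⟨hχK hxt, by linarith [not_lt.1 h2]⟩
      have h2 : ∀ᶠ y in 𝓝 x, nrm y < δ := (isOpen_lt continuous_nrm continuous_const).mem_nhds h1
      filter_upwards [h2] with y hy
      rw [hδ0 y hy, hδ0 x h1]
    · have h2 : ∀ᶠ y in 𝓝 x, y ∉ tsupport χ := (isClosed_tsupport χ).isOpen_compl.mem_nhds hxt
      filter_upwards [h2] with y hy
      rw [image_eq_zero_of_notMem_tsupport hy, image_eq_zero_of_notMem_tsupport hxt]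
  obtain ⟨C', hC', hcmp⟩ := h3 (m + 2) χ hχ hcs S hSc hSloc
  -- the limit function is continuous on `S`
  have hSshell : S ⊆ {x | 0 < nrm x ∧ nrm x < 1} := by
    intro x hx
    exact ⟨lt_of_lt_of_le (by positivity) hx.2, hVu (hSV hx)⟩
  have hgS : ContinuousOn g S := hgc.mono hSshell
  have hφS : ∀ x ∈ S, phi N0 F τ x = (g x : EReal) := fun x hx =>
    hgφ x (hSshell hx).1 (hSshell hx).2
  have hdini := dini hSc hSV hf hanti hlim hgS hφS
  obtain ⟨B, hB⟩ := hSc.exists_bound_of_continuousOn hgS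
  have hBS : ∀ x ∈ S, |g x| ≤ B := fun x hx => by
    have := hB x hx
    rwa [Real.norm_eq_abs] at this
  -- the functions `h_k` converge uniformly on `S`
  have hk : ∀ ε > 0, ∀ᶠ k in atTop, ∀ x ∈ S, |hh N0 F τ k x - g x| ≤ ε := by
    intro ε hε
    have h1 : Tendsto (fun k : ℕ => 2 * ((m : ℝ) + 3) / (N0 : ℝ) * (1 / 2) ^ k) atTop (𝓝 0) := by
      have := (tendsto_pow_atTop_nhds_zero_of_lt_one (r := (1 / 2 : ℝ)) (by norm_num)
        (by norm_num)).const_mul (2 * ((m : ℝ) + 3) / (N0 : ℝ))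
      simpa using this
    have h2 : ∀ᶠ k in atTop, 2 * ((m : ℝ) + 3) / (N0 : ℝ) * (1 / 2) ^ k < ε :=
      h1.eventually_lt_const hε
    have h3 : ∀ᶠ k in atTop, r k < δ / 2 := (r_tendsto hc).eventually_lt_const (by positivity)
    filter_upwards [h2, h3] with k hk2 hk3 x hx
    have h4 := hgh k x (hk3.le.trans hx.2) (hSshell hx).2
    have h5 : 2 * ((m : ℝ) + 3) / ((N0 : ℝ) * 2 ^ k) = 2 * ((m : ℝ) + 3) / (N0 : ℝ) * (1 / 2) ^ k := by
      rw [one_div, inv_pow]
      field_simp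
    rw [h5] at h4
    rw [abs_le]
    constructor <;> linarith [h4.1, h4.2]
  -- comparison
  have htest := tendsto_test h6 hc hm0 hχ.continuous hcs (hsub.trans hVu) h0
  have hzero : Tendsto (fun j => (∫ x, χ x * maDensity (f j) x) -
      ∫ x, χ x * maDensity (hh N0 F τ j) x) atTop (𝓝 0) := by
    rw [Metric.tendsto_nhds]
    intro ε hε
    -- choose the tolerance
    set η : ℝ := min 1 (ε / (2 * (C' * (|B| + 1) ^ (m + 1)) + 1) / 2) with hη
    have hden : 0 < 2 * (C' * (|B| + 1) ^ (m + 1)) + 1 := by positivity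
    have hη0 : 0 < η := by
      rw [hη]
      exact lt_min one_pos (by positivity)
    have hη1 : η ≤ 1 := min_le_left _ _
    have hη2 : η ≤ ε / (2 * (C' * (|B| + 1) ^ (m + 1)) + 1) / 2 := min_le_right _ _
    have e1 := hk η hη0
    have e2 := (Metric.tendstoUniformlyOn_iff.1 hdini) η hη0
    filter_upwards [e1, e2] with j hj1 hj2
    have hj2' : ∀ x ∈ S, |f j x - g x| ≤ η := fun x hx => by
      have := hj2 x hx
      rw [Real.dist_eq, abs_sub_comm] at this
      exact this.le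
    have h7 := hcmp V hV hsub hSV (f j) (hh N0 F τ j) (hf j) (smooth_hh h6 hc j).contDiffOn
      (fun x hx => h4 _ V (f j) hV (hf j) (hpsh j) x hx)
      (fun x _ => psd_hh h4 h5 h6 hc j x) (|B| + 1) (2 * η) (by positivity)
      (fun x hx => by
        have h8 := hj2' x hx
        have h9 := hBS x hx
        have h10 := abs_le.1 h8
        have h11 := abs_le.1 h9
        have h12 := le_abs_self B
        rw [abs_le]
        constructor <;> linarith)
      (fun x hx => by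
        have h8 := hj1 x hx
        have h9 := hBS x hx
        have h10 := abs_le.1 h8
        have h11 := abs_le.1 h9
        have h12 := le_abs_self B
        rw [abs_le]
        constructor <;> linarith)
      (fun x hx => by
        have h8 := abs_le.1 (hj2' x hx)
        have h9 := abs_le.1 (hj1 x hx)
        rw [abs_le]
        constructor <;> linarith)
    rw [Real.dist_eq, sub_zero]
    refine lt_of_le_of_lt h7 ?_
    have e3 : m + 2 - 1 = m + 1 := by omega
    rw [e3]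
    have h13 : C' * (|B| + 1) ^ (m + 1) * (2 * η) ≤
        (2 * (C' * (|B| + 1) ^ (m + 1)) + 1) * η := by nlinarith
    refine lt_of_le_of_lt h13 ?_
    have h14 : (2 * (C' * (|B| + 1) ^ (m + 1)) + 1) * η ≤ ε / 2 := by
      calc (2 * (C' * (|B| + 1) ^ (m + 1)) + 1) * η
          ≤ (2 * (C' * (|B| + 1) ^ (m + 1)) + 1) *
            (ε / (2 * (C' * (|B| + 1) ^ (m + 1)) + 1) / 2) :=
            mul_le_mul_of_nonneg_left hη2 hden.le
        _ = ε / 2 := by field_simp
    linarith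
  have hfin := hzero.add htest
  simpa using hfin

end Pool.Agent.Helper53.ZM
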